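import Pool.Agent.H442R2.EHI.Core2
import Mathlib.MeasureTheory.Integral.IntervalIntegral.Basic

/-!
The main terms: the sum of `1/log |n² + a|` and the logarithmic integral, for ranges close to `x`.
-/

set_option autoImplicit false

namespace Pool.Agent.W81.R1A

open Finset Filter
open Pool.Agent.H442R2.EHI (evt_log_pow evt_log_ge)

/-- the sum of `1 / log |n² + a|` -/
noncomputable def LS (a : ℤ) (y : ℕ) : ℝ :=
  ∑ n ∈ (Icc 1 y).filter (fun n : ℕ => 2 ≤ |(n : ℤ) ^ 2 + a|), 1 / Real.log |(((n : ℤ) ^ 2 + a : ℤ) : ℝ)|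

lemma evt_ll (K : ℕ) (c : ℝ) (hc : 0 < c) :
    ∀ᶠ x : ℕ in atTop, K * Real.log (Real.log x) ≤ c * Real.log x := by
  have h1 : (fun t : ℝ => Real.log t ^ 1) =o[atTop] (fun t : ℝ => t) := Real.isLittleO_pow_log_id_atTop
  have h2 := h1.bound (show (0 : ℝ) < c / ((K : ℝ) + 1) by positivity)
  have h3 : ∀ᶠ t : ℝ in atTop, K * Real.log t ≤ c * t := by
    filter_upwards [h2, eventually_ge_atTop 1] with t ht ht1
    have hl : 0 ≤ Real.log t := Real.log_nonneg ht1
    rw [pow_one, Real.norm_of_nonneg hl, Real.norm_of_nonneg (by linarith)] at ht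
    have hE : (0 : ℝ) ≤ (K : ℝ) := by positivity
    calc (K : ℝ) * Real.log t ≤ ((K : ℝ) + 1) * (c / ((K : ℝ) + 1) * t) := by
          apply mul_le_mul (by linarith) ht hl (by linarith)
      _ = c * t := by field_simp
  exact (Real.tendsto_log_atTop.comp tendsto_natCast_atTop_atTop).eventually h3

lemma int_ok (a b : ℝ) (ha : 2 ≤ a) (hb : 2 ≤ b) :
    IntervalIntegrable (fun t : ℝ => 1 / Real.log t) MeasureTheory.volume a b := by
  apply ContinuousOn.intervalIntegrable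
  apply ContinuousOn.div continuousOn_const
  · apply ContinuousOn.log continuousOn_id
    intro t ht
    rw [Set.mem_uIcc] at ht
    simp only [id]
    rcases ht with h | h <;> linarith [h.1, h.2]
  · intro t ht
    rw [Set.mem_uIcc] at ht
    have h2 : 2 ≤ t := by rcases ht with h | h <;> linarith [h.1, h.2]
    exact (Real.log_pos (by linarith)).ne'

/-- the logarithmic integral -/
lemma int_asymp (C : ℕ) (δ : ℝ) (hδ : 0 < δ) (hδ1 : δ ≤ 1) : ∀ᶠ x : ℕ in atTop, ∀ y : ℕ, y ≤ x →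
    (x : ℝ) / Real.log x ^ C ≤ y →
    |(∫ t in (2 : ℝ)..y, 1 / Real.log t) - y / Real.log x| ≤ δ * (y / Real.log x) := by
  filter_upwards [evt_ll (C + 2) (δ / 4) (by positivity), evt_log_ge (16 / δ), evt_log_ge 4,
    evt_log_pow (C + 3) (1 / 2) (by norm_num), eventually_ge_atTop 16]
    with x hll hLδ hL4 hpow hx16 y hyx hylo
  set L := Real.log x with hL
  have hL0 : 0 < L := by linarith
  have hL1 : 1 ≤ L := by linarith
  have hLδ' : 16 ≤ δ * L := by
    rw [div_le_iff₀ hδ] at hLδ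
    linarith
  have hxr : (16 : ℝ) ≤ x := by exact_mod_cast hx16
  have hx0 : (0 : ℝ) < x := by linarith
  have hyxr : (y : ℝ) ≤ x := by exact_mod_cast hyx
  have hxhalf : (x : ℝ) ^ (1 / 2 : ℝ) * (x : ℝ) ^ (1 / 2 : ℝ) = x := by
    rw [← Real.rpow_add hx0]; norm_num
  have hxh4 : (4 : ℝ) ≤ (x : ℝ) ^ (1 / 2 : ℝ) := by
    rw [← Real.sqrt_eq_rpow]
    apply Real.le_sqrt_of_sq_le
    linarith
  set w := (x : ℝ) / L ^ (C + 2) with hw
  have hwlo : (x : ℝ) ^ (1 / 2 : ℝ) ≤ w := by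
    rw [hw, le_div_iff₀ (by positivity)]
    calc (x : ℝ) ^ (1 / 2 : ℝ) * L ^ (C + 2) ≤ (x : ℝ) ^ (1 / 2 : ℝ) * L ^ (C + 3) := by
          apply mul_le_mul_of_nonneg_left _ (by positivity)
          exact pow_le_pow_right₀ hL1 (by omega)
      _ ≤ (x : ℝ) ^ (1 / 2 : ℝ) * (x : ℝ) ^ (1 / 2 : ℝ) := by gcongr
      _ = x := hxhalf
  have hw4 : 4 ≤ w := hxh4.trans hwlo
  have hwy : w * L ^ 2 ≤ y := by
    refine le_trans (le_of_eq ?_) hylo
    rw [hw, pow_add]
    field_simp
  have hwy' : w ≤ y := by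
    have h1 : 1 ≤ L ^ 2 := one_le_pow₀ hL1
    nlinarith
  have hy4 : (4 : ℝ) ≤ y := hw4.trans hwy'
  have hyL : L * L ≤ y := by nlinarith
  have hlogy : Real.log y ≤ L := Real.log_le_log (by linarith) hyxr
  have hlogw : (1 - δ / 4) * L ≤ Real.log w := by
    rw [hw, Real.log_div (by linarith) (by positivity), Real.log_pow]
    push_cast at hll ⊢
    linarith
  have hlogw0 : 0 < Real.log w := by
    refine lt_of_lt_of_le ?_ hlogw
    have : 0 < 1 - δ / 4 := by linarith
    positivity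
  have hlow : (y : ℝ) / L - 2 / L ≤ ∫ t in (2 : ℝ)..y, 1 / Real.log t := by
    have h1 : (∫ t in (2 : ℝ)..y, 1 / L) ≤ ∫ t in (2 : ℝ)..y, 1 / Real.log t := by
      apply intervalIntegral.integral_mono_on (by linarith) intervalIntegrable_const
        (int_ok _ _ le_rfl (by linarith))
      intro t ht
      rw [Set.mem_Icc] at ht
      have h2 : Real.log t ≤ Real.log y := Real.log_le_log (by linarith) ht.2
      exact one_div_le_one_div_of_le (Real.log_pos (by linarith)) (h2.trans hlogy)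
    rw [intervalIntegral.integral_const, smul_eq_mul] at h1
    refine le_trans (le_of_eq ?_) h1
    ring
  have hup : (∫ t in (2 : ℝ)..y, 1 / Real.log t) ≤ 2 * w + y / ((1 - δ / 4) * L) := by
    rw [← intervalIntegral.integral_add_adjacent_intervals (int_ok 2 w le_rfl (by linarith))
      (int_ok w y (by linarith) (by linarith))]
    apply add_le_add
    · have h1 : (∫ t in (2 : ℝ)..w, 1 / Real.log t) ≤ ∫ t in (2 : ℝ)..w, (2 : ℝ) := by
        apply intervalIntegral.integral_mono_on (by linarith) (int_ok _ _ le_rfl (by linarith))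
          intervalIntegrable_const
        intro t ht
        rw [Set.mem_Icc] at ht
        have h2 : Real.log 2 ≤ Real.log t := Real.log_le_log (by norm_num) ht.1
        have h3 := Real.log_two_gt_d9
        rw [div_le_iff₀ (by linarith)]
        linarith
      rw [intervalIntegral.integral_const, smul_eq_mul] at h1
      linarith
    · have h1 : (∫ t in w..y, 1 / Real.log t) ≤ ∫ t in w..y, 1 / ((1 - δ / 4) * L) := by
        apply intervalIntegral.integral_mono_on hwy' (int_ok _ _ (by linarith) (by linarith))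
          intervalIntegrable_const
        intro t ht
        rw [Set.mem_Icc] at ht
        have h2 : Real.log w ≤ Real.log t := Real.log_le_log (by linarith) ht.1
        have h4 : 0 < 1 - δ / 4 := by linarith
        exact one_div_le_one_div_of_le (by positivity) (hlogw.trans h2)
      rw [intervalIntegral.integral_const, smul_eq_mul] at h1
      refine h1.trans ?_
      rw [mul_one_div]
      have h4 : 0 < 1 - δ / 4 := by linarith
      apply div_le_div_of_nonneg_right _ (by positivity)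
      linarith
  have hyL0 : 0 < (y : ℝ) / L := by positivity
  have h2L : 2 / L ≤ δ * (y / L) := by
    rw [mul_div_assoc']
    apply div_le_div_of_nonneg_right _ hL0.le
    nlinarith
  have hw2 : 2 * w ≤ (δ / 4) * (y / L) := by
    have h9 : δ / 4 * ((y : ℝ) / L) = (δ / 4 * y) / L := by ring
    rw [h9, le_div_iff₀ hL0]
    clear_value w
    nlinarith
  have hd : y / ((1 - δ / 4) * L) ≤ (1 + δ / 2) * (y / L) := by
    have h4 : 0 < 1 - δ / 4 := by linarith
    rw [mul_div_assoc', div_le_div_iff₀ (by positivity) hL0]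
    have h5 : 1 ≤ (1 + δ / 2) * (1 - δ / 4) := by nlinarith
    have h6 : 0 ≤ (y : ℝ) * L := by positivity
    nlinarith
  rw [abs_le]
  constructor
  · linarith
  · nlinarith

/-- few values of `n² + a` are small -/
lemma few_small (a : ℤ) (y : ℕ) (T : ℝ) (hT : 0 ≤ T) :
    (((Icc 1 y).filter (fun n : ℕ => |(((n : ℤ) ^ 2 + a : ℤ) : ℝ)| < T)).card : ℝ) ≤ 2 * Real.sqrt T + 1 := by
  set S := (Icc 1 y).filter (fun n : ℕ => |(((n : ℤ) ^ 2 + a : ℤ) : ℝ)| < T) with hS
  rcases S.eq_empty_or_nonempty with he | hne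
  · rw [he, card_empty]
    have := Real.sqrt_nonneg T
    push_cast
    linarith
  · set m := S.min' hne with hm
    set M := S.max' hne with hM
    have hmS := S.min'_mem hne
    have hMS := S.max'_mem hne
    rw [← hm] at hmS
    rw [← hM] at hMS
    have hmM : m ≤ M := S.min'_le _ hMS
    have hsub : S ⊆ Icc m M := by
      intro n hn
      rw [mem_Icc]
      exact ⟨S.min'_le _ hn, S.le_max' _ hn⟩
    have hc := card_le_card hsub
    rw [Nat.card_Icc] at hc
    have hcr : (S.card : ℝ) ≤ (M : ℝ) - m + 1 := by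
      have h1 : S.card + m ≤ M + 1 := by omega
      have h2 : (S.card : ℝ) + m ≤ M + 1 := by exact_mod_cast h1
      linarith
    rw [hS, mem_filter] at hmS hMS
    have h1 := abs_lt.1 hmS.2
    have h2 := abs_lt.1 hMS.2
    push_cast at h1 h2
    have hmMr : (m : ℝ) ≤ M := by exact_mod_cast hmM
    have hm0 : (0 : ℝ) ≤ m := Nat.cast_nonneg _
    have h3 : ((M : ℝ) - m) ^ 2 ≤ (2 * Real.sqrt T) ^ 2 := by
      rw [mul_pow, Real.sq_sqrt hT]
      nlinarith
    have h4 : (M : ℝ) - m ≤ 2 * Real.sqrt T := by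
      apply le_of_sq_le_sq h3
      have := Real.sqrt_nonneg T
      linarith
    linarith

/-- the sum of `1/log |n² + a|` -/
lemma sum_asymp (C : ℕ) (δ : ℝ) (hδ : 0 < δ) (hδ1 : δ ≤ 1) : ∀ᶠ x : ℕ in atTop, ∀ (a : ℤ) (y : ℕ),
    (|a| : ℝ) ≤ 2 * ((x : ℝ) ^ 2 * Real.log x ^ C) → y ≤ x → (x : ℝ) / Real.log x ^ C ≤ y →
    |LS a y - y / (2 * Real.log x)| ≤ δ * (y / (2 * Real.log x)) := by
  filter_upwards [evt_ll (2 * C + 8) (δ / 4) (by positivity), evt_log_ge (64 / δ), evt_log_ge 4,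
    evt_log_pow (C + 6) (1 / 2) (by norm_num), eventually_ge_atTop 16]
    with x hll hLδ hL4 hpow hx16 a y ha hyx hylo
  set L := Real.log x with hL
  have hL0 : 0 < L := by linarith
  have hL1 : 1 ≤ L := by linarith
  have hp : ∀ n : ℕ, 0 < L ^ n := fun n => by positivity
  have hp1 : ∀ n : ℕ, 1 ≤ L ^ n := fun n => one_le_pow₀ hL1
  have hLδ' : 64 ≤ δ * L := by
    rw [div_le_iff₀ hδ] at hLδ
    linarith
  have hxr : (16 : ℝ) ≤ x := by exact_mod_cast hx16
  have hx0 : (0 : ℝ) < x := by linarith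
  have hyxr : (y : ℝ) ≤ x := by exact_mod_cast hyx
  have hxhalf : (x : ℝ) ^ (1 / 2 : ℝ) * (x : ℝ) ^ (1 / 2 : ℝ) = x := by
    rw [← Real.rpow_add hx0]; norm_num
  have hxh4 : (4 : ℝ) ≤ (x : ℝ) ^ (1 / 2 : ℝ) := by
    rw [← Real.sqrt_eq_rpow]
    apply Real.le_sqrt_of_sq_le
    linarith
  -- lower bound for `y`
  have hylo2 : (x : ℝ) ≤ y * L ^ C := by
    rwa [div_le_iff₀ (hp _)] at hylo
  have hyL3 : L ^ 3 ≤ y := by
    have h1 : (x : ℝ) ^ (1 / 2 : ℝ) * L ^ (C + 6) ≤ x := by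
      calc (x : ℝ) ^ (1 / 2 : ℝ) * L ^ (C + 6) ≤ (x : ℝ) ^ (1 / 2 : ℝ) * (x : ℝ) ^ (1 / 2 : ℝ) := by gcongr
        _ = x := hxhalf
    have h2 : L ^ 3 * L ^ C ≤ y * L ^ C := by
      refine le_trans ?_ hylo2
      refine le_trans ?_ h1
      calc L ^ 3 * L ^ C = 1 * (L ^ (C + 3)) := by ring
        _ ≤ (x : ℝ) ^ (1 / 2 : ℝ) * L ^ (C + 6) := by
            apply mul_le_mul (by linarith) (pow_le_pow_right₀ hL1 (by omega)) (by positivity) (by positivity)
    exact le_of_mul_le_mul_right h2 (hp C)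
  have hLL3 : L ≤ L ^ 3 := le_self_pow₀ hL1 (by norm_num)
  have hy4 : (4 : ℝ) ≤ y := by linarith
  have hylog2 : 1 / 2 ≤ Real.log 2 := by have := Real.log_two_gt_d9; linarith
  set T : ℝ := (x : ℝ) ^ 2 / L ^ (2 * C + 6) with hT
  have hT0 : 0 < T := by positivity
  have hT4 : 4 ≤ T := by
    rw [hT, le_div_iff₀ (hp _)]
    have h1 : L ^ (2 * C + 6) ≤ (L ^ (C + 6)) ^ 2 := by
      rw [← pow_mul]
      exact pow_le_pow_right₀ hL1 (by omega)
    have h2 : (L ^ (C + 6)) ^ 2 ≤ ((x : ℝ) ^ (1 / 2 : ℝ)) ^ 2 := pow_le_pow_left₀ (by positivity) hpow 2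
    have h3 : ((x : ℝ) ^ (1 / 2 : ℝ)) ^ 2 = x := by rw [sq]; exact hxhalf
    rw [h3] at h2
    nlinarith
  have hsT : Real.sqrt T = x / L ^ (C + 3) := by
    have : T = (x / L ^ (C + 3)) ^ 2 := by
      rw [hT, div_pow, ← pow_mul, show (C + 3) * 2 = 2 * C + 6 by ring]
    rw [this, Real.sqrt_sq (by positivity)]
  have hfew := few_small a y T hT0.le
  rw [hsT] at hfew
  have hfew2 : (((Icc 1 y).filter (fun n : ℕ => |(((n : ℤ) ^ 2 + a : ℤ) : ℝ)| < T)).card : ℝ) ≤ 3 * (y / L ^ 3) := by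
    refine hfew.trans ?_
    have h1 : (x : ℝ) / L ^ (C + 3) ≤ y / L ^ 3 := by
      rw [div_le_div_iff₀ (hp _) (hp _)]
      calc (x : ℝ) * L ^ 3 ≤ (y * L ^ C) * L ^ 3 := by gcongr
        _ = y * L ^ (C + 3) := by ring
    have h2 : 1 ≤ (y : ℝ) / L ^ 3 := by
      rw [le_div_iff₀ (hp _), one_mul]
      exact hyL3
    linarith
  -- sizes
  have hlogup : ∀ n ∈ Icc 1 y, |(((n : ℤ) ^ 2 + a : ℤ) : ℝ)| ≤ (x : ℝ) ^ 2 * L ^ (C + 2) := by
    intro n hn
    rw [mem_Icc] at hn
    have hnx : (n : ℝ) ≤ x := by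
      have : (n : ℝ) ≤ y := by exact_mod_cast hn.2
      linarith
    have hn0 : (0 : ℝ) ≤ n := Nat.cast_nonneg _
    push_cast
    refine (abs_add_le _ _).trans ?_
    rw [abs_of_nonneg (by positivity : (0 : ℝ) ≤ (n : ℝ) ^ 2)]
    have h1 : (n : ℝ) ^ 2 ≤ x ^ 2 := by gcongr
    have h2 : (x : ℝ) ^ 2 * 1 ≤ (x : ℝ) ^ 2 * L ^ C := by gcongr; exact hp1 _
    have h3 : (x : ℝ) ^ 2 * L ^ (C + 2) = ((x : ℝ) ^ 2 * L ^ C) * L ^ 2 := by ring
    have h4 : 3 ≤ L ^ 2 := by nlinarith
    have h5 : 0 < (x : ℝ) ^ 2 * L ^ C := by positivity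
    rw [h3]
    nlinarith
  have hlogup2 : ∀ n ∈ Icc 1 y, (2 : ℝ) ≤ |(((n : ℤ) ^ 2 + a : ℤ) : ℝ)| →
      Real.log |(((n : ℤ) ^ 2 + a : ℤ) : ℝ)| ≤ 2 * L * (1 + δ / 8) := by
    intro n hn h2
    have h1 := Real.log_le_log (by linarith) (hlogup n hn)
    rw [Real.log_mul (by positivity) (by positivity), Real.log_pow, Real.log_pow] at h1
    refine h1.trans ?_
    have hll0 : 0 ≤ Real.log L := Real.log_nonneg hL1
    have h3 : ((C + 2 : ℕ) : ℝ) * Real.log L ≤ ((2 * C + 8 : ℕ) : ℝ) * Real.log L := by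
      apply mul_le_mul_of_nonneg_right _ hll0
      exact_mod_cast (by omega : C + 2 ≤ 2 * C + 8)
    push_cast at h3 hll ⊢
    rw [← hL]
    nlinarith
  -- lower bound of the sum
  set F := (Icc 1 y).filter (fun n : ℕ => 2 ≤ |(n : ℤ) ^ 2 + a|) with hF
  have hFr : ∀ n ∈ F, (2 : ℝ) ≤ |(((n : ℤ) ^ 2 + a : ℤ) : ℝ)| := by
    intro n hn
    rw [hF, mem_filter] at hn
    exact_mod_cast hn.2
  have hFc : (y : ℝ) - 3 * (y / L ^ 3) ≤ F.card := by
    have h1 : ((Icc 1 y).filter (fun n : ℕ => ¬ (2 ≤ |(n : ℤ) ^ 2 + a|))) ⊆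
        (Icc 1 y).filter (fun n : ℕ => |(((n : ℤ) ^ 2 + a : ℤ) : ℝ)| < T) := by
      intro n hn
      rw [mem_filter] at hn ⊢
      refine ⟨hn.1, ?_⟩
      have h2 : |(n : ℤ) ^ 2 + a| ≤ 1 := by omega
      have h3 : |(((n : ℤ) ^ 2 + a : ℤ) : ℝ)| ≤ 1 := by exact_mod_cast h2
      linarith
    have h2 := card_le_card h1
    have h3 := card_filter_add_card_filter_not (s := Icc 1 y) (fun n : ℕ => 2 ≤ |(n : ℤ) ^ 2 + a|)
    rw [Nat.card_Icc, Nat.add_sub_cancel] at h3
    have h4 : (y : ℝ) ≤ F.card + (((Icc 1 y).filter (fun n : ℕ => |(((n : ℤ) ^ 2 + a : ℤ) : ℝ)| < T)).card : ℝ) := by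
      have h5 : y ≤ F.card + ((Icc 1 y).filter (fun n : ℕ => |(((n : ℤ) ^ 2 + a : ℤ) : ℝ)| < T)).card := by
        rw [hF]
        omega
      exact_mod_cast h5
    linarith
  have hyL0 : 0 < (y : ℝ) / (2 * L) := by positivity
  have hlow : (1 - δ) * (y / (2 * L)) ≤ LS a y := by
    have h1 : ∑ n ∈ F, 1 / (2 * L * (1 + δ / 8)) ≤ LS a y := by
      unfold LS
      refine sum_le_sum fun n hn => ?_
      have h2 := hFr n hn
      have h3 : 0 < Real.log |(((n : ℤ) ^ 2 + a : ℤ) : ℝ)| := Real.log_pos (by linarith)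
      have h4 := hlogup2 n (mem_filter.1 hn).1 h2
      exact one_div_le_one_div_of_le h3 h4
    rw [sum_const, nsmul_eq_mul] at h1
    refine le_trans ?_ h1
    rw [mul_one_div, mul_div_assoc', div_le_div_iff₀ (by positivity) (by positivity)]
    have h5 : (1 - δ / 2) * y ≤ F.card := by
      refine le_trans ?_ hFc
      have h6 : 3 * ((y : ℝ) / L ^ 3) ≤ δ / 2 * y := by
        rw [mul_div_assoc', div_le_iff₀ (hp _)]
        have h7 : 3 ≤ δ / 2 * L ^ 3 := by nlinarith
        nlinarith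
      linarith
    have h8 : (1 - δ) * (1 + δ / 8) ≤ 1 - δ / 2 := by nlinarith
    have h9 : 0 ≤ (y : ℝ) * (2 * L) := by positivity
    calc (1 - δ) * (y : ℝ) * (2 * L * (1 + δ / 8)) = ((1 - δ) * (1 + δ / 8)) * (y * (2 * L)) := by ring
      _ ≤ (1 - δ / 2) * (y * (2 * L)) := by gcongr
      _ = ((1 - δ / 2) * y) * (2 * L) := by ring
      _ ≤ F.card * (2 * L) := by gcongr
  -- upper bound
  have hup : LS a y ≤ (1 + δ) * (y / (2 * L)) := by
    have hd0 : 0 < 1 - δ / 4 := by linarith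
    have h1 : LS a y ≤ ∑ n ∈ Icc 1 y, 1 / (2 * L * (1 - δ / 4)) +
        ∑ n ∈ (Icc 1 y).filter (fun n : ℕ => |(((n : ℤ) ^ 2 + a : ℤ) : ℝ)| < T), (2 : ℝ) := by
      have h2 : LS a y = ∑ n ∈ F.filter (fun n : ℕ => ¬ |(((n : ℤ) ^ 2 + a : ℤ) : ℝ)| < T),
            1 / Real.log |(((n : ℤ) ^ 2 + a : ℤ) : ℝ)| +
          ∑ n ∈ F.filter (fun n : ℕ => |(((n : ℤ) ^ 2 + a : ℤ) : ℝ)| < T),
            1 / Real.log |(((n : ℤ) ^ 2 + a : ℤ) : ℝ)| := by
        unfold LS
        rw [add_comm, sum_filter_add_sum_filter_not]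
      rw [h2]
      apply add_le_add
      · refine le_trans (sum_le_sum (g := fun _ => 1 / (2 * L * (1 - δ / 4))) fun n hn => ?_) ?_
        · rw [mem_filter] at hn
          have h3 := not_lt.1 hn.2
          apply one_div_le_one_div_of_le (by positivity)
          have h4 := Real.log_le_log hT0 h3
          refine le_trans ?_ h4
          rw [hT, Real.log_div (by positivity) (by positivity), Real.log_pow, Real.log_pow]
          have hll0 : 0 ≤ Real.log L := Real.log_nonneg hL1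
          have h5 : ((2 * C + 6 : ℕ) : ℝ) * Real.log L ≤ ((2 * C + 8 : ℕ) : ℝ) * Real.log L := by
            apply mul_le_mul_of_nonneg_right _ hll0
            exact_mod_cast (by omega : 2 * C + 6 ≤ 2 * C + 8)
          push_cast at h5 hll ⊢
          rw [← hL]
          nlinarith
        · apply sum_le_sum_of_subset_of_nonneg
          · exact (filter_subset _ _).trans (filter_subset _ _)
          · intro n _ _
            positivity
      · refine le_trans (sum_le_sum (g := fun _ => (2 : ℝ)) fun n hn => ?_) ?_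
        · rw [mem_filter] at hn
          have h3 := hFr n hn.1
          have h4 := Real.log_le_log (by norm_num) h3
          rw [div_le_iff₀ (by linarith)]
          linarith
        · apply sum_le_sum_of_subset_of_nonneg
          · intro n hn
            rw [mem_filter] at hn ⊢
            exact ⟨(mem_filter.1 hn.1).1, hn.2⟩
          · intro n _ _
            norm_num
    refine h1.trans ?_
    rw [sum_const, Nat.card_Icc, Nat.add_sub_cancel, nsmul_eq_mul, sum_const, nsmul_eq_mul]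
    have h3 : (y : ℝ) * (1 / (2 * L * (1 - δ / 4))) ≤ (1 + δ / 2) * (y / (2 * L)) := by
      rw [mul_one_div, mul_div_assoc', div_le_div_iff₀ (by positivity) (by positivity)]
      have h5 : 1 ≤ (1 + δ / 2) * (1 - δ / 4) := by nlinarith
      have h6 : 0 ≤ (y : ℝ) * (2 * L) := by positivity
      nlinarith
    have h4 : (((Icc 1 y).filter (fun n : ℕ => |(((n : ℤ) ^ 2 + a : ℤ) : ℝ)| < T)).card : ℝ) * 2 ≤
        δ / 2 * (y / (2 * L)) := by
      calc (((Icc 1 y).filter (fun n : ℕ => |(((n : ℤ) ^ 2 + a : ℤ) : ℝ)| < T)).card : ℝ) * 2 ≤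
            (3 * (y / L ^ 3)) * 2 := by gcongr
        _ = (12 / L ^ 2) * (y / (2 * L)) := by field_simp; ring
        _ ≤ δ / 2 * (y / (2 * L)) := by
            apply mul_le_mul_of_nonneg_right _ hyL0.le
            rw [div_le_iff₀ (hp _)]
            nlinarith
    linarith
  rw [abs_le]
  constructor <;> linarith

end Pool.Agent.W81.R1A
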